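import Pool.Agent.R993.QR.Gamma

/-! # A quantum random access code without good simultaneous per-bit decoding

n = m = 5, p = 3/4.  The code state of x is an equal mixture of a classical label which reveals all
bits of x except one (the bit in the direction of the edge of a perfect matching of the
5-dimensional cube at x) and of an eigenstate of one of five anticommuting observables, which
reveals that bit. -/

namespace Pool.Agent.Results.MP_49fc99_mp.NoSimultaneousDecoding

open Matrix Finset Pool.Agent.R993.LU Pool.Agent.R993.QR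
open scoped ComplexOrder

/-- density operators -/
def IsState {N : Type} [Fintype N] (ρ : Matrix N N ℂ) : Prop := ρ.PosSemidef ∧ ρ.trace = 1

/-- POVMs with outcome set S -/
def IsPOVM {N S : Type} [Fintype N] [DecidableEq N] [Fintype S] (Q : S → Matrix N N ℂ) : Prop :=
  (∀ s, (Q s).PosSemidef) ∧ ∑ s, Q s = 1

/-- (n, m, p) quantum random access codes -/
def IsQRAC (n m : ℕ) (p : ℝ) (ρ : (Fin n → Bool) → Matrix (Fin (2 ^ m)) (Fin (2 ^ m)) ℂ) : Prop :=
  (∀ x, IsState (ρ x)) ∧
  ∀ i, ∃ M : Bool → Matrix (Fin (2 ^ m)) (Fin (2 ^ m)) ℂ, IsPOVM M ∧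
    ∀ x, p ≤ (M (x i) * ρ x).trace.re

/-- the probability that the i-th bit of the outcome y differs from x i -/
noncomputable def errProb {n m : ℕ} (Q ρ : (Fin n → Bool) → Matrix (Fin (2 ^ m)) (Fin (2 ^ m)) ℂ)
    (x : Fin n → Bool) (i : Fin n) : ℝ :=
  ∑ y ∈ Finset.univ.filter (fun y : Fin n → Bool => y i ≠ x i), (Q y * ρ x).trace.re

/-! ### the perfect matching -/

/-- the direction of the matching edge at x -/
def special (x : Fin 5 → Bool) : Fin 5 :=
  if x 2 = false ∧ x 3 = false ∧ x 4 = false then 1
  else if x 1 = false ∧ x 3 = false ∧ x 4 = true then 2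
  else if x 1 = true ∧ x 2 = true ∧ x 4 = false then 3
  else if x 1 = true ∧ x 2 = false ∧ x 3 = true then 4
  else 0

/-- the label of the edge: its endpoint with the special bit off -/
def label (x : Fin 5 → Bool) : Fin 5 → Bool := Function.update x (special x) false

/-- four labels that are not used -/
def junk (b : Bits 2) : Fin 5 → Bool :=
  ![true, false, b 0 = 1, if b 0 = 0 then true else b 1 = 1, if b 0 = 0 then b 1 = 1 else false]

/-- one edge in each direction -/
def base : Fin 5 → Fin 5 → Bool :=
  ![![false, false, false, true, false], ![false, false, false, false, false],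
    ![false, false, false, false, true], ![false, true, true, false, false],
    ![false, true, false, true, false]]

lemma special_label (x : Fin 5 → Bool) : special (label x) = special x := by
  revert x; decide

lemma label_ne_junk (x : Fin 5 → Bool) (b : Bits 2) : label x ≠ junk b := by
  revert x b; decide

lemma junk_inj : Function.Injective junk := by
  intro a b; revert a b; decide

lemma base_special (i : Fin 5) : special (base i) = i := by revert i; decide

lemma base_special' (i : Fin 5) : special (Function.update (base i) i true) = i := by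
  revert i; decide

lemma base_label (i : Fin 5) : label (Function.update (base i) i true) = label (base i) := by
  revert i; decide

lemma base_bit (i : Fin 5) : base i i = false := by revert i; decide

/-! ### the code -/

/-- numbering of the labels -/
noncomputable def enum : (Fin 5 → Bool) ≃ Fin (2 ^ 5) := Fintype.equivFinOfCardEq (by simp)

/-- the classical position -/
noncomputable def pos (x : Fin 5 → Bool) : Fin (2 ^ 5) := enum (label x)

/-- embedding of the two-qubit block -/
noncomputable def V : Matrix (Fin (2 ^ 5)) (Bits 2) ℂ :=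
  Matrix.of fun a b => if a = enum (junk b) then 1 else 0

lemma VV : Vᴴ * V = 1 := by
  ext a b
  simp only [Matrix.mul_apply, Matrix.conjTranspose_apply, V, Matrix.of_apply, Matrix.one_apply]
  rw [Finset.sum_eq_single (enum (junk a))]
  · rw [if_pos rfl]
    by_cases h : a = b
    · subst h; simp
    · rw [if_neg h, if_neg]
      · simp
      · intro h2; exact h (junk_inj (enum.injective h2))
  · intro c _ hc
    rw [if_neg hc]
    simp
  · intro h; exact absurd (Finset.mem_univ _) h

lemma trace_VV (A B : Matrix (Bits 2) (Bits 2) ℂ) :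
    ((V * A * Vᴴ) * (V * B * Vᴴ)).trace = (A * B).trace := by
  have : (V * A * Vᴴ) * (V * B * Vᴴ) = V * (A * B) * Vᴴ := by
    calc (V * A * Vᴴ) * (V * B * Vᴴ) = V * A * (Vᴴ * V) * B * Vᴴ := by
          simp only [Matrix.mul_assoc]
      _ = _ := by rw [VV, Matrix.mul_one]; simp only [Matrix.mul_assoc]
  rw [this, Matrix.trace_mul_comm, ← Matrix.mul_assoc, VV, Matrix.one_mul]

lemma trace_V (A : Matrix (Bits 2) (Bits 2) ℂ) : (V * A * Vᴴ).trace = A.trace := by
  rw [Matrix.trace_mul_comm, ← Matrix.mul_assoc, VV, Matrix.one_mul]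

lemma trace_diag_V (w : Fin (2 ^ 5) → ℂ) (hw : ∀ b, w (enum (junk b)) = 0)
    (A : Matrix (Bits 2) (Bits 2) ℂ) : (Matrix.diagonal w * (V * A * Vᴴ)).trace = 0 := by
  have : Matrix.diagonal w * V = 0 := by
    ext a b
    rw [Matrix.diagonal_mul]
    simp only [V, Matrix.of_apply, Matrix.zero_apply]
    by_cases h : a = enum (junk b)
    · rw [h, hw, zero_mul]
    · rw [if_neg h, mul_zero]
  rw [← Matrix.mul_assoc, ← Matrix.mul_assoc, this, Matrix.zero_mul, Matrix.zero_mul,
    Matrix.trace_zero]

/-- the classical state -/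
noncomputable def cls (x : Fin 5 → Bool) : Matrix (Fin (2 ^ 5)) (Fin (2 ^ 5)) ℂ :=
  Matrix.diagonal (Pi.single (pos x) 1)

/-- the two-qubit operator c (1 + (-1)^b Γᵢ) -/
noncomputable def eig (c : ℂ) (b : Bool) (i : Fin 5) : Matrix (Bits 2) (Bits 2) ℂ :=
  c • (1 + sg b • gam i)

/-- the code -/
noncomputable def code (x : Fin 5 → Bool) : Matrix (Fin (2 ^ 5)) (Fin (2 ^ 5)) ℂ :=
  (1 / 2 : ℂ) • (cls x + V * eig (1 / 4) (x (special x)) (special x) * Vᴴ)

/-- weights of the decoding measurement on the classical part -/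
noncomputable def wt (i : Fin 5) (b : Bool) (a : Fin (2 ^ 5)) : ℝ :=
  if ∃ c, a = enum (junk c) then 0
  else if special (enum.symm a) = i then 1 / 2
  else if enum.symm a i = b then 1 else 0

/-- the decoding measurement of the i-th bit -/
noncomputable def dec (i : Fin 5) (b : Bool) : Matrix (Fin (2 ^ 5)) (Fin (2 ^ 5)) ℂ :=
  Matrix.diagonal (fun a => (wt i b a : ℂ)) + V * eig (1 / 2) b i * Vᴴ

lemma eig_pos (c : ℝ) (hc : 0 ≤ c) (b : Bool) (i : Fin 5) : (eig (c : ℂ) b i).PosSemidef := by
  have h1 : (1 + sg b • gam i) * (1 + sg b • gam i)ᴴ = (2 : ℂ) • (1 + sg b • gam i) := by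
    rw [Matrix.conjTranspose_add, Matrix.conjTranspose_one, Matrix.conjTranspose_smul, gam_herm,
      sg_star, add_mul, mul_add, mul_add]
    simp only [smul_mul_assoc, mul_smul_comm, smul_smul, gam_sq,
      sg_sq, Matrix.mul_one, Matrix.one_mul, one_smul, two_smul]
    abel
  have h2 : eig (c : ℂ) b i = ((c / 2 : ℝ) : ℂ) • ((1 + sg b • gam i) * (1 + sg b • gam i)ᴴ) := by
    rw [h1, smul_smul]
    unfold eig
    congr 1
    push_cast
    ring
  rw [h2]
  exact (Matrix.posSemidef_self_mul_conjTranspose _).smul
    (Complex.zero_le_real.2 (by positivity))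

lemma eig_trace (c : ℂ) (b : Bool) (i : Fin 5) : (eig c b i).trace = 4 * c := by
  unfold eig
  rw [Matrix.trace_smul, Matrix.trace_add, Matrix.trace_smul, gam_trace, smul_zero, add_zero,
    Matrix.trace_one]
  simp
  ring

lemma code_isState (x : Fin 5 → Bool) : IsState (code x) := by
  constructor
  · unfold code
    have h1 : (cls x).PosSemidef := by
      unfold cls
      apply Matrix.PosSemidef.diagonal
      intro a
      by_cases h : a = pos x
      · subst h; simp
      · simp [Pi.single_apply, h]
    have h2 : (V * eig (1 / 4) (x (special x)) (special x) * Vᴴ).PosSemidef := by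
      have := eig_pos (1 / 4) (by norm_num) (x (special x)) (special x)
      rw [show (((1 / 4 : ℝ)) : ℂ) = 1 / 4 by push_cast; ring] at this
      exact this.mul_mul_conjTranspose_same V
    exact (h1.add h2).smul (by
      rw [show (1 / 2 : ℂ) = ((1 / 2 : ℝ) : ℂ) by push_cast; ring]
      exact Complex.zero_le_real.2 (by norm_num))
  · unfold code
    rw [Matrix.trace_smul, Matrix.trace_add, trace_V, eig_trace]
    unfold cls
    rw [Matrix.trace_diagonal]
    simp
    norm_num

lemma dec_isPOVM (i : Fin 5) : IsPOVM (dec i) := by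
  constructor
  · intro b
    unfold dec
    refine Matrix.PosSemidef.add ?_ ?_
    · apply Matrix.PosSemidef.diagonal
      intro a
      change (0 : ℂ) ≤ (wt i b a : ℂ)
      apply Complex.zero_le_real.2
      unfold wt
      split_ifs <;> norm_num
    · have := eig_pos (1 / 2) (by norm_num) b i
      rw [show (((1 / 2 : ℝ)) : ℂ) = 1 / 2 by push_cast; ring] at this
      exact this.mul_mul_conjTranspose_same V
  · rw [Fintype.sum_bool]
    unfold dec
    have h1 : V * eig (1 / 2) true i * Vᴴ + V * eig (1 / 2) false i * Vᴴ = V * Vᴴ := by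
      rw [← Matrix.add_mul, ← Matrix.mul_add]
      have : eig (1 / 2) true i + eig (1 / 2) false i = 1 := by
        unfold eig sg
        rw [← smul_add]
        simp only [if_true, Bool.false_eq_true, if_false, one_smul, neg_smul]
        rw [show (1 + -gam i + (1 + gam i)) = (2 : ℂ) • (1 : Matrix (Bits 2) (Bits 2) ℂ) by
          rw [two_smul]; abel, smul_smul]
        norm_num
      rw [this, Matrix.mul_one]
    have h2 : V * Vᴴ = Matrix.diagonal (fun a => if ∃ c, a = enum (junk c) then (1 : ℂ) else 0) := by
      ext a a'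
      simp only [Matrix.mul_apply, Matrix.conjTranspose_apply, V, Matrix.of_apply,
        Matrix.diagonal_apply]
      by_cases h : ∃ c, a = enum (junk c)
      · obtain ⟨c, rfl⟩ := h
        rw [Finset.sum_eq_single c]
        · by_cases h3 : enum (junk c) = a'
          · subst h3
            simp
          · have h4 : ¬ (a' = enum (junk c)) := fun h => h3 h.symm
            simp [h3, h4]
        · intro b _ hb
          have : ¬ (enum (junk c) = enum (junk b)) := fun h =>
            hb (junk_inj (enum.injective h)).symm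
          rw [if_neg this, zero_mul]
        · intro h; exact absurd (Finset.mem_univ _) h
      · have h4 : ∀ b, ¬ (a = enum (junk b)) := fun b hb => h ⟨b, hb⟩
        simp [h4]
    have h3 : ∀ A B C D : Matrix (Fin (2 ^ 5)) (Fin (2 ^ 5)) ℂ,
        A + B + (C + D) = (A + C) + (B + D) := by intros; abel
    rw [h3, h1, h2, Matrix.diagonal_add, Matrix.diagonal_add]
    rw [← Matrix.diagonal_one]
    congr 1
    funext a
    unfold wt
    by_cases h : ∃ c, a = enum (junk c)
    · simp [h]
    · by_cases h2 : special (enum.symm a) = i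
      · simp [h, h2]
        norm_num
      · by_cases h3 : enum.symm a i = true
        · simp [h, h2, h3]
        · have h4 : enum.symm a i = false := by simpa using h3
          simp [h, h2, h4]

lemma pos_not_junk (x : Fin 5 → Bool) : ¬ ∃ c, pos x = enum (junk c) := by
  rintro ⟨c, hc⟩
  exact label_ne_junk x c (enum.injective hc)

lemma code_isQRAC : IsQRAC 5 5 (3 / 4) code := by
  refine ⟨code_isState, fun i => ⟨dec i, dec_isPOVM i, fun x => ?_⟩⟩
  unfold dec code
  rw [mul_smul_comm, Matrix.trace_smul, Matrix.mul_add, Matrix.add_mul, Matrix.add_mul,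
    Matrix.trace_add, Matrix.trace_add, Matrix.trace_add, trace_VV,
    trace_diag_V _ (fun b => by simp [wt])]
  have e1 : ((V * eig (1 / 2) (x i) i * Vᴴ) * cls x).trace = 0 := by
    rw [Matrix.trace_mul_comm]
    unfold cls
    apply trace_diag_V
    intro b
    rw [Pi.single_apply, if_neg]
    intro h
    exact pos_not_junk x ⟨b, h.symm⟩
  have e2 : ((Matrix.diagonal fun a => (wt i (x i) a : ℂ)) * cls x).trace
      = (wt i (x i) (pos x) : ℂ) := by
    unfold cls
    rw [Matrix.diagonal_mul_diagonal, Matrix.trace_diagonal, Finset.sum_eq_single (pos x)]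
    · simp
    · intro a _ ha
      simp [Pi.single_apply, ha]
    · intro h; exact absurd (Finset.mem_univ _) h
  have e3 : wt i (x i) (pos x) = if special x = i then 1 / 2 else 1 := by
    unfold wt
    rw [if_neg (pos_not_junk x)]
    unfold pos
    rw [Equiv.symm_apply_apply, special_label]
    by_cases h : special x = i
    · simp [h]
    · rw [if_neg h, if_neg h, if_pos]
      unfold label
      rw [Function.update_of_ne (fun h2 => h h2.symm)]
  have e4 : (eig (1 / 2) (x i) i * eig (1 / 4) (x (special x)) (special x)).trace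
      = if special x = i then 1 else 1 / 2 := by
    unfold eig
    rw [smul_mul_assoc, mul_smul_comm, Matrix.trace_smul, Matrix.trace_smul, add_mul, mul_add,
      mul_add]
    simp only [smul_mul_assoc, mul_smul_comm, Matrix.mul_one, Matrix.one_mul, Matrix.trace_add,
      Matrix.trace_smul, gam_trace,
      Matrix.trace_one, smul_zero, add_zero, zero_add, smul_eq_mul]
    by_cases h : special x = i
    · rw [if_pos h, h, gam_sq, Matrix.trace_one]
      have := sg_sq (x i)
      have hc : ((Fintype.card (Bits 2) : ℕ) : ℂ) = 4 := by simp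
      rw [hc]
      linear_combination (1 / 2 : ℂ) * this
    · rw [if_neg h, gam_trace_mul _ _ (fun h2 => h h2.symm)]
      have hc : ((Fintype.card (Bits 2) : ℕ) : ℂ) = 4 := by simp
      rw [hc]
      ring
  rw [e1, e2, e3, e4]
  by_cases h : special x = i
  · simp [h]
    norm_num
  · simp [h]
    norm_num

/-! ### the bound -/

lemma povm_total {ρ : Matrix (Fin (2 ^ 5)) (Fin (2 ^ 5)) ℂ} (hρ : IsState ρ)
    {Q : (Fin 5 → Bool) → Matrix (Fin (2 ^ 5)) (Fin (2 ^ 5)) ℂ} (hQ : IsPOVM Q) :
    ∑ y, (Q y * ρ).trace.re = 1 := by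
  rw [← Complex.re_sum, ← Matrix.trace_sum, ← Finset.sum_mul, hQ.2, Matrix.one_mul, hρ.2]
  simp

/-- the sign of agreement -/
noncomputable def agree (a b : Bool) : ℝ := if a = b then 1 else -1

lemma bias_eq {ρ : (Fin 5 → Bool) → Matrix (Fin (2 ^ 5)) (Fin (2 ^ 5)) ℂ}
    (hρ : ∀ x, IsState (ρ x))
    {Q : (Fin 5 → Bool) → Matrix (Fin (2 ^ 5)) (Fin (2 ^ 5)) ℂ} (hQ : IsPOVM Q)
    (x : Fin 5 → Bool) (i : Fin 5) :
    1 - 2 * errProb Q ρ x i = ∑ y, agree (y i) (x i) * (Q y * ρ x).trace.re := by
  unfold errProb
  rw [← povm_total (hρ x) hQ, Finset.sum_filter, Finset.mul_sum, ← Finset.sum_sub_distrib]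
  refine Finset.sum_congr rfl fun y _ => ?_
  unfold agree
  by_cases h : y i = x i
  · simp [h]
  · simp only [ne_eq, h, not_false_eq_true, if_true, if_false]
    ring

lemma code_diff (i : Fin 5) : code (base i) - code (Function.update (base i) i true)
    = (1 / 4 : ℂ) • (V * gam i * Vᴴ) := by
  unfold code cls pos
  rw [base_special, base_special', base_label, Function.update_self, base_bit, ← smul_sub]
  have e : eig (1 / 4) false i - eig (1 / 4) true i = (1 / 2 : ℂ) • gam i := by
    unfold eig sg
    rw [← smul_sub]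
    simp only [if_true, Bool.false_eq_true, if_false, one_smul, neg_smul]
    rw [show (1 + gam i - (1 + -gam i)) = (2 : ℂ) • gam i by rw [two_smul]; abel, smul_smul]
    norm_num
  rw [add_sub_add_left_eq_sub, ← Matrix.sub_mul, ← Matrix.mul_sub, e, Matrix.mul_smul,
    Matrix.smul_mul, smul_smul]
  norm_num

lemma trace_bound (B : Matrix (Bits 2) (Bits 2) ℂ) (hB : B.PosSemidef) (y : Fin 5 → Bool) :
    (B * gsum y).trace.re ≤ Real.sqrt 5 * B.trace.re := by
  set r : ℝ := Real.sqrt 5 with hr
  have hr2 : r * r = 5 := Real.mul_self_sqrt (by norm_num)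
  have hr0 : 0 < r := Real.sqrt_pos.2 (by norm_num)
  set D : Matrix (Bits 2) (Bits 2) ℂ := (r : ℂ) • 1 - gsum y with hD
  have hDh : Dᴴ = D := by
    rw [hD, Matrix.conjTranspose_sub, gsum_herm, Matrix.conjTranspose_smul,
      Matrix.conjTranspose_one]
    simp
  have hDD : D * D = ((2 * r : ℝ) : ℂ) • D := by
    rw [hD, sub_mul, mul_sub, mul_sub]
    simp only [smul_mul_assoc, mul_smul_comm, gsum_sq, Matrix.one_mul, Matrix.mul_one, smul_sub,
      smul_smul]
    have h5 : (5 : Matrix (Bits 2) (Bits 2) ℂ) = ((r * r : ℝ) : ℂ) • 1 := by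
      rw [hr2, show ((5 : ℝ) : ℂ) = ((5 : ℕ) : ℂ) by norm_num, Nat.cast_smul_eq_nsmul, nsmul_one]
      norm_num
    rw [h5]
    push_cast
    module
  have h1 : 0 ≤ (B * D).trace.re := by
    have h2 : ((2 * r : ℝ) : ℂ) * (B * D).trace = (Dᴴ * B * D).trace := by
      rw [hDh, Matrix.trace_mul_comm (D * B) D, ← Matrix.mul_assoc, hDD, Matrix.smul_mul,
        Matrix.trace_smul, smul_eq_mul, Matrix.trace_mul_comm D B]
    have h3 : 0 ≤ (Dᴴ * B * D).trace.re :=
      (Complex.le_def.1 (hB.conjTranspose_mul_mul_same D).trace_nonneg).1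
    rw [← h2, Complex.re_ofReal_mul] at h3
    by_contra hneg
    push Not at hneg
    have : (2 * r) * (B * D).trace.re < 0 := mul_neg_of_pos_of_neg (by positivity) hneg
    linarith
  rw [hD, Matrix.mul_sub, Matrix.trace_sub, Matrix.mul_smul, Matrix.trace_smul, Matrix.mul_one,
    Complex.sub_re, smul_eq_mul, Complex.re_ofReal_mul] at h1
  linarith

theorem result :
    ∃ ρ : (Fin 5 → Bool) → Matrix (Fin (2 ^ 5)) (Fin (2 ^ 5)) ℂ, IsQRAC 5 5 (3 / 4) ρ ∧
      ∀ Q : (Fin 5 → Bool) → Matrix (Fin (2 ^ 5)) (Fin (2 ^ 5)) ℂ, IsPOVM Q →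
        ∃ x i, 2 * (3 / 4) * (1 - 3 / 4) < errProb Q ρ x i := by
  refine ⟨code, code_isQRAC, fun Q hQ => ?_⟩
  by_contra hcon
  push Not at hcon
  have hcon' : ∀ x i, errProb Q code x i ≤ 3 / 8 := fun x i => (hcon x i).trans (by norm_num)
  -- the sum of the biases over the five edges
  have hpair : ∀ i : Fin 5, 1 / 2 ≤ (1 / 4) * ∑ y : Fin 5 → Bool,
      ((Vᴴ * Q y * V) * (sg (y i) • gam i)).trace.re := by
    intro i
    have b1 := bias_eq code_isState hQ (base i) i
    have b2 := bias_eq code_isState hQ (Function.update (base i) i true) i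
    have l1 := hcon' (base i) i
    have l2 := hcon' (Function.update (base i) i true) i
    have key : (1 / 4) * ∑ y : Fin 5 → Bool, ((Vᴴ * Q y * V) * (sg (y i) • gam i)).trace.re
        = ∑ y, agree (y i) (base i i) * (Q y * code (base i)).trace.re
          + ∑ y, agree (y i) (Function.update (base i) i true i) *
            (Q y * code (Function.update (base i) i true)).trace.re := by
      rw [Finset.mul_sum, ← Finset.sum_add_distrib]
      refine Finset.sum_congr rfl fun y _ => ?_
      have hd : (Q y * code (base i)).trace.re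
          - (Q y * code (Function.update (base i) i true)).trace.re
          = (1 / 4) * ((Vᴴ * Q y * V) * gam i).trace.re := by
        rw [← Complex.sub_re, ← Matrix.trace_sub, ← Matrix.mul_sub, code_diff, Matrix.mul_smul,
          Matrix.trace_smul, smul_eq_mul]
        have : (Q y * (V * gam i * Vᴴ)).trace = ((Vᴴ * Q y * V) * gam i).trace := by
          rw [← Matrix.mul_assoc, Matrix.trace_mul_comm]
          simp only [Matrix.mul_assoc]
        rw [this, show (1 / 4 : ℂ) = ((1 / 4 : ℝ) : ℂ) by push_cast; ring, Complex.re_ofReal_mul]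
      rw [Function.update_self, base_bit]
      rw [Matrix.mul_smul, Matrix.trace_smul, smul_eq_mul]
      unfold agree sg
      cases hy : y i
      · simp only [Bool.false_eq_true, if_false, if_true, one_mul]
        linarith
      · simp only [Bool.true_eq_false, if_false, if_true, one_mul]
        rw [show (-1 : ℂ) * ((Vᴴ * Q y * V) * gam i).trace
          = -((Vᴴ * Q y * V) * gam i).trace by ring, Complex.neg_re]
        linarith
    rw [key, ← b1, ← b2]
    linarith
  have hsum : (5 / 2 : ℝ) ≤ (1 / 4) * ∑ y : Fin 5 → Bool,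
      ((Vᴴ * Q y * V) * gsum y).trace.re := by
    have h1 : ∑ i : Fin 5, (1 / 2 : ℝ) ≤ ∑ i : Fin 5, (1 / 4) * ∑ y : Fin 5 → Bool,
      ((Vᴴ * Q y * V) * (sg (y i) • gam i)).trace.re := Finset.sum_le_sum fun i _ => hpair i
    rw [← Finset.mul_sum, Finset.sum_comm] at h1
    have h2 : ∀ y : Fin 5 → Bool, ∑ i, ((Vᴴ * Q y * V) * (sg (y i) • gam i)).trace.re
        = ((Vᴴ * Q y * V) * gsum y).trace.re := by
      intro y
      unfold gsum
      rw [Finset.mul_sum, Matrix.trace_sum, Complex.re_sum]
    simp only [h2] at h1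
    calc (5 / 2 : ℝ) = ∑ i : Fin 5, (1 / 2 : ℝ) := by simp; norm_num
      _ ≤ _ := h1
  have hupper : ∑ y : Fin 5 → Bool, ((Vᴴ * Q y * V) * gsum y).trace.re ≤ Real.sqrt 5 * 4 := by
    calc ∑ y : Fin 5 → Bool, ((Vᴴ * Q y * V) * gsum y).trace.re
        ≤ ∑ y : Fin 5 → Bool, Real.sqrt 5 * (Vᴴ * Q y * V).trace.re :=
          Finset.sum_le_sum fun y _ =>
            trace_bound _ ((hQ.1 y).conjTranspose_mul_mul_same V) y
      _ = Real.sqrt 5 * 4 := by
          rw [← Finset.mul_sum, ← Complex.re_sum, ← Matrix.trace_sum, ← Matrix.sum_mul,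
            ← Matrix.mul_sum, hQ.2, Matrix.mul_one, VV, Matrix.trace_one]
          simp
  have h5 : Real.sqrt 5 < 5 / 2 := by
    rw [Real.sqrt_lt' (by norm_num)]
    norm_num
  linarith

end Pool.Agent.Results.MP_49fc99_mp.NoSimultaneousDecoding
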